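import Pool.Agent.helper62.DP8.Spec

set_option autoImplicit false

namespace Pool.Agent.helper62.DP8

theorem BB2_aux (g : ℕ) (W : Type) (a : ℕ → Finset W) (R : W → W → Prop) (t : ℕ → Bool → W → Prop) (hC : Cyc g W a R t)
    (hT : Tight W a t) (v w : Bool) (x y z : W) (hx : x ∈ a 1) (hy : y ∈ a 2) (hz : z ∈ a 3) (htx : t 2 v x) (htz : t 2 v z)
    (hRxz : ¬ R x z) (hty : t 3 w y) (hRxy : ¬ R x y) (hRzy : ¬ R z y) : ∃ c : ℕ → W, ChB W a R t 3 c := by
  have un := hT.un
  have hx0 : ∀ j s, j ≤ 2 → t j s x → j = 2 ∧ s = v := fun j s hj h =>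
    un 0 x hx j 2 s v (Nat.zero_le _) hj (by norm_num) (by norm_num) h htx
  have hy0 : ∀ j s, 1 ≤ j → j ≤ 3 → t j s y → j = 3 ∧ s = w := fun j s h1 hj h =>
    un 1 y hy j 3 s w h1 hj (by norm_num) (by norm_num) h hty
  have hz0 : ∀ j s, 2 ≤ j → j ≤ 4 → t j s z → j = 2 ∧ s = v := fun j s h1 hj h =>
    un 2 z hz j 2 s v h1 hj (by norm_num) (by norm_num) h htz
  have hRyz : ¬ R y z := fun h => hRzy (hC.symm _ _ h)
  refine ⟨fun n => if n = 1 then x else if n = 2 then y else z, ?_⟩
  refine ⟨?_, ?_, ?_, ?_, ?_, ?_, ?_⟩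
  · intro j h1 h2
    obtain rfl | rfl | rfl : j = 1 ∨ j = 2 ∨ j = 3 := by omega
    · simpa using hx
    · simpa using hy
    · simpa using hz
  · intro j h1 h2
    obtain rfl | rfl : j = 1 ∨ j = 2 := by omega
    · simpa using hRxy
    · simpa using hRyz
  · intro j h1 h2
    obtain rfl : j = 1 := by omega
    simpa using hRxz
  · intro s
    refine ⟨?_, ?_, ?_⟩
    · intro h
      have := (hx0 0 s (by norm_num) (by simpa using h)).1
      omega
    · intro h
      have := (hx0 1 s (by norm_num) (by simpa using h)).1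
      omega
    · intro h
      have := (hy0 1 s (by norm_num) (by norm_num) (by simpa using h)).1
      omega
  · intro j h1 h2
    obtain rfl : j = 1 := by omega
    refine ⟨!v, ?_, ?_, ?_⟩
    · intro h
      have := (hx0 2 (!v) (by norm_num) (by simpa using h)).2
      cases v <;> simp at this
    · intro h
      have := (hy0 2 (!v) (by norm_num) (by norm_num) (by simpa using h)).1
      omega
    · intro h
      have := (hz0 2 (!v) (by norm_num) (by norm_num) (by simpa using h)).2
      cases v <;> simp at this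
  · refine ⟨!w, ?_, ?_⟩
    · intro h
      have := (hy0 3 (!w) (by norm_num) (by norm_num) (by simpa using h)).2
      cases w <;> simp at this
    · intro h
      have := (hz0 3 (!w) (by norm_num) (by norm_num) (by simpa using h)).1
      omega
  · intro s h
    have := (hz0 4 s (by norm_num) (by norm_num) (by simpa using h)).1
    omega

theorem BB2 : BB2_stmt := by
  intro g W a R t hC hT v x hx z hz htx htz hRxz hall
  have hg := hC.g5
  have un := hT.un
  obtain ⟨y0, hy0, hty0⟩ := hT.ex 1 2 v (by norm_num) (by norm_num)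
  obtain ⟨y1, hy1, hty1⟩ := hT.ex 1 3 true (by norm_num) (by norm_num)
  obtain ⟨y2, hy2, hty2⟩ := hT.ex 1 3 false (by norm_num) (by norm_num)
  have hxy0 : R x y0 := hall y0 hy0 hty0
  have key : ∀ (w : Bool) (y : W), y ∈ a 2 → t 3 w y → ¬ R x y := by
    intro w y hy hty h
    have e : y0 = y := hC.mat 1 2 (by norm_num) (by omega) x hx y0 hy0 y hy hxy0 h
    subst e
    have := (un 1 y0 hy0 2 3 v w (by norm_num) (by norm_num) (by norm_num) (by norm_num) hty0 hty).1
    omega
  have hne : y1 ≠ y2 := by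
    intro e
    subst e
    have := (un 1 y1 hy1 3 3 true false (by norm_num) (by norm_num) (by norm_num) (by norm_num) hty1 hty2).2
    cases this
  by_cases h1 : R z y1
  · by_cases h2 : R z y2
    · exact absurd (hC.mat' 2 3 (by norm_num) (by omega) z hz y1 hy1 y2 hy2 h1 h2) hne
    · exact BB2_aux g W a R t hC hT v false x y2 z hx hy2 hz htx htz hRxz hty2 (key _ _ hy2 hty2) h2
  · exact BB2_aux g W a R t hC hT v true x y1 z hx hy1 hz htx htz hRxz hty1 (key _ _ hy1 hty1) h1

end Pool.Agent.helper62.DP8
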